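import Pool.Agent.THF.K.Defs
import Pool.Agent.THF.L.Defs

/-!
# TF2/Defs: degree classes

`Lv M B j F`: the degree of `F` is divisible by `M` and at most `B / 2 ^ j`.  The hypotheses of the relative
theorems are `GlobL D a M B` and `MerL D a M B`; the conclusions hold for the fields with `Lv M B k K`, `k` a
constant.
-/

namespace Pool.Agent.TF2

open NumberField IsDedekindDomain Pool.Agent.HWR Pool.Agent.QD Pool.Agent.QD.In Pool.Agent.LD
  Pool.Agent.MD Pool.Agent.THF

/-- the degree of `F` is divisible by `M`, and at most `B / 2 ^ j` -/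
def Lv (M B j : ℕ) (F : Type) [Field F] [NumberField F] : Prop :=
  M ∣ Module.finrank ℚ F ∧ Module.finrank ℚ F * 2 ^ j ≤ B

theorem Lv.mono {M B j k : ℕ} {F : Type} [Field F] [NumberField F] (h : Lv M B k F)
    (hjk : j ≤ k) : Lv M B j F :=
  ⟨h.1, (Nat.mul_le_mul_left _ (Nat.pow_le_pow_right two_pos hjk)).trans h.2⟩

theorem Lv.quad {M B j : ℕ} {K L : Type} [Field K] [NumberField K] [Field L] [NumberField L]
    [Algebra K L] (h : Lv M B (j + 1) K) (hd : Module.finrank K L = 2) : Lv M B j L := by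
  have h1 : Module.finrank ℚ L = Module.finrank ℚ K * 2 := by
    rw [← Module.finrank_mul_finrank ℚ K L, hd]
  refine ⟨?_, ?_⟩
  · rw [h1]
    exact h.1.mul_right 2
  · rw [h1, mul_assoc, ← pow_succ']
    exact h.2

/-- a quadratic extension has twice the divisor -/
theorem Lv.quad2 {M B j : ℕ} {K L : Type} [Field K] [NumberField K] [Field L] [NumberField L]
    [Algebra K L] (h : Lv M B (j + 1) K) (hd : Module.finrank K L = 2) : Lv (2 * M) B j L := by
  have h1 : Module.finrank ℚ L = Module.finrank ℚ K * 2 := by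
    rw [← Module.finrank_mul_finrank ℚ K L, hd]
  refine ⟨?_, ?_⟩
  · rw [h1, mul_comm]
    exact mul_dvd_mul_right h.1 2
  · rw [h1, mul_assoc, ← pow_succ']
    exact h.2

theorem Lv.of_dvd {M M' B j : ℕ} {F : Type} [Field F] [NumberField F] (h : Lv M' B j F)
    (hM : M ∣ M') : Lv M B j F := ⟨hM.trans h.1, h.2⟩

/-- totally complex, and even local degrees at the places over the primes `p ∈ V`, `p ∉ T` -/
def ThinV (V T : Finset ℕ) (F : Type) [Field F] [NumberField F] : Prop :=
  IsEmpty (F →+* ℝ) ∧ ∀ p ∈ V, p.Prime → p ∉ T →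
    ∀ w : HeightOneSpectrum (𝓞 F), ((p : ℕ) : 𝓞 F) ∈ w.asIdeal → 2 ∣ locDeg ℚ w

variable {T : Finset ℕ} (D : LocData T) (a : ℕ → ℝ) (M B : ℕ)

/-- every number field of the class has a set `V` with `HWN`, `HWN4` -/
def GlobL : Prop :=
  ∀ (F : Type) [Field F] [NumberField F], Lv M B 2 F → ∃ V : Finset (HeightOneSpectrum (𝓞 F)),
    V.Nonempty ∧ (∀ v ∈ V, Away F T v) ∧ HWN D a V ∧ HWN4 D a V

/-- the completed L-functions of the fields of the class are meromorphic -/
def MerL : Prop :=
  ∀ (F : Type) [Field F] [NumberField F], Lv M B 0 F → ∃ N : ℕ, 0 < N ∧ MERn D a F N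

/-- Hasse-Weil up to the sign, and with the exact sign for quadratic extensions of totally positive or totally
negative elements -/
def ExL (k : ℕ) : Prop :=
  (∀ (K : Type) [Field K] [NumberField K], Lv M B k K → HWpm D a K) ∧
    ∀ (K : Type) [Field K] [NumberField K], Lv M B (k + 1) K → ∀ x : Kˣ, ¬ IsSquare x →
      ((∀ φ : K →+* ℝ, 0 < φ (x : K)) ∨ ∀ φ : K →+* ℝ, φ (x : K) < 0) →
      ∀ (F : Type) [Field F] [NumberField F] [Algebra K F] (θ : F), Module.finrank K F = 2 →
        θ ^ 2 = algebraMap K F (x : K) → D.HW a F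

/-- Hasse-Weil up to the sign for the fields of the class, and with the exact sign for their quadratic
extensions -/
def Cl (k : ℕ) : Prop :=
  ∀ (K : Type) [Field K] [NumberField K], Lv M B k K → HWpm D a K ∧
    ∀ (F : Type) [Field F] [NumberField F] [Algebra K F], Module.finrank K F = 2 → D.HW a F

end Pool.Agent.TF2
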